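import Pool.Agent.P8H64.GP.Stm

set_option autoImplicit false

namespace Pool.Agent.P8H61.GP

open MeasureTheory ProbabilityTheory Pool.Agent.P8H64.GP

theorem law : S_LAW := by
  intro r u hu
  have hm : Measurable (fun v : Fin r → ℝ => ∑ k, u k * v k) := by fun_prop
  have hp : IsProbabilityMeasure ((gr r).map (fun v => ∑ k, u k * v k)) :=
    Measure.isProbabilityMeasure_map hm.aemeasurable
  apply Measure.ext_of_charFun
  ext t
  rw [charFun_gaussianReal, charFun_apply_real, integral_map hm.aemeasurable (by fun_prop)]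
  have h1 : ∀ v : Fin r → ℝ, Complex.exp ((t : ℂ) * ((∑ k, u k * v k : ℝ) : ℂ) * Complex.I) =
      ∏ k, Complex.exp (((t * u k : ℝ) : ℂ) * ((v k : ℝ) : ℂ) * Complex.I) := by
    intro v
    rw [← Complex.exp_sum]
    congr 1
    push_cast
    rw [Finset.mul_sum, Finset.sum_mul]
    apply Finset.sum_congr rfl
    intro k _
    ring
  simp_rw [h1]
  rw [integral_fintype_prod_eq_prod (fun (k : Fin r) (x : ℝ) =>
    Complex.exp (((t * u k : ℝ) : ℂ) * (x : ℂ) * Complex.I))]
  simp_rw [← charFun_apply_real, charFun_gaussianReal]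
  rw [← Complex.exp_sum]
  congr 1
  simp only [Complex.ofReal_zero, mul_zero, zero_mul, zero_sub, NNReal.coe_one, Complex.ofReal_one, one_mul]
  rw [Finset.sum_neg_distrib, ← Finset.sum_div]
  congr 2
  have h2 : ∑ k, (((t * u k : ℝ) : ℂ)) ^ 2 = (((t ^ 2 * ∑ k, u k ^ 2 : ℝ)) : ℂ) := by
    push_cast
    rw [Finset.mul_sum]
    apply Finset.sum_congr rfl
    intro k _
    ring
  rw [h2, hu]
  push_cast
  ring

lemma gauss_le : gaussianReal 0 1 ≤ (volume : Measure ℝ) := by
  rw [gaussianReal_of_var_ne_zero 0 one_ne_zero]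
  have h1 : (volume : Measure ℝ).withDensity (gaussianPDF 0 1) ≤ (volume : Measure ℝ).withDensity 1 := by
    apply withDensity_mono
    refine Filter.Eventually.of_forall fun x => ?_
    show ENNReal.ofReal (gaussianPDFReal 0 1 x) ≤ 1
    rw [ENNReal.ofReal_le_one]
    unfold gaussianPDFReal
    have h2 : 1 ≤ Real.sqrt (2 * Real.pi * ((1 : NNReal) : ℝ)) := by
      rw [Real.one_le_sqrt]
      have := Real.pi_gt_three
      push_cast
      linarith
    have h3 : (Real.sqrt (2 * Real.pi * ((1 : NNReal) : ℝ)))⁻¹ ≤ 1 := inv_le_one_of_one_le₀ h2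
    have h4 : Real.exp (-(x - 0) ^ 2 / (2 * ((1 : NNReal) : ℝ))) ≤ 1 := by
      rw [Real.exp_le_one_iff]
      have : 0 ≤ (x - 0) ^ 2 := sq_nonneg _
      push_cast
      nlinarith
    exact mul_le_one₀ h3 (Real.exp_pos _).le h4
  rwa [withDensity_one] at h1

theorem log : S_LOG := by
  have hid : Integrable (fun x : ℝ => |x|) (gaussianReal 0 1) := by
    have h1 : MemLp (id : ℝ → ℝ) 1 (gaussianReal 0 1) := memLp_id_gaussianReal 1
    have h2 := memLp_one_iff_integrable.mp h1
    exact h2.abs
  have hfun : (fun x : ℝ => Real.log |x|) = Real.log := by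
    funext x
    exact Real.log_abs x
  unfold S_LOG
  rw [hfun]
  have hin : IntegrableOn Real.log (Set.Ioc (-1) 1) (gaussianReal 0 1) := by
    have h1 : IntervalIntegrable Real.log volume (-1) 1 := intervalIntegral.intervalIntegrable_log'
    rw [intervalIntegrable_iff_integrableOn_Ioc_of_le (by norm_num)] at h1
    exact Integrable.mono_measure h1 (Measure.restrict_mono le_rfl gauss_le)
  have hout : IntegrableOn Real.log (Set.Ioc (-1) 1)ᶜ (gaussianReal 0 1) := by
    refine Integrable.mono' hid.integrableOn Real.measurable_log.aestronglyMeasurable ?_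
    rw [ae_restrict_iff' measurableSet_Ioc.compl]
    refine Filter.Eventually.of_forall fun x hx => ?_
    rw [Real.norm_eq_abs]
    have hx1 : 1 ≤ |x| := by
      rw [Set.mem_compl_iff, Set.mem_Ioc, not_and_or, not_lt, not_le] at hx
      rcases hx with h | h
      · rw [abs_of_nonpos (by linarith)]; linarith
      · rw [abs_of_pos (by linarith)]; linarith
    rw [← Real.log_abs, abs_of_nonneg (Real.log_nonneg hx1)]
    exact (Real.log_le_sub_one_of_pos (by linarith)).trans (by linarith)
  have := hin.union hout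
  rwa [Set.union_compl_self, integrableOn_univ] at this

end Pool.Agent.P8H61.GP
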